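import Mathlib

/-!
# The `q`-inversion symmetry of the sums `Z_{N,q}(w)` attached to words in `x, y, z`

The sum is written as a lattice path sum `D fac w p r` with steps on the antidiagonals `p + r = const`. With the
weights of the Markov chain which stays at `p` with weight `q ^ p` and moves to `p + 1` with weight `1 - q ^ p` one gets
an operator that intertwines the path sums for `q` and for `q⁻¹`; at `p = 0` it is the identity.
-/

set_option autoImplicit false

namespace Pool.Agent.Results.MP_aa79fc_nt.QInversion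

/-- The three letters. -/
inductive Letter
  | x
  | y
  | z
  deriving DecidableEq

open Letter

section Path

variable {K : Type*} [Field K]

/-- Path sums: `p` and `r` are the two coordinates. -/
def D (fac : Letter → ℕ → ℕ → K) : List Letter → ℕ → ℕ → K
  | [], _, _ => 1
  | _ :: _, _, 0 => 0
  | x :: w, p, r + 1 => fac x p (r + 1) * D fac w p r + D fac (x :: w) (p + 1) r
  | y :: w, p, r + 1 => fac y (p + 1) (r + 1) * D fac w (p + 1) (r + 1) + D fac (y :: w) (p + 1) r
  | z :: w, p, r + 1 => fac z p (r + 1) * D fac w p (r + 1) + D fac (z :: w) (p + 1) r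
  termination_by w _ r => (w.length, r)

/-- The number of letters `x`. -/
def cx : List Letter → ℕ
  | [] => 0
  | x :: w => cx w + 1
  | _ :: w => cx w

/-- The last letter is `x` (or the word is empty). -/
def Good : List Letter → Prop
  | [] => True
  | u :: [] => u = x
  | _ :: w => Good w

theorem good_tail {u : Letter} {w : List Letter} (h : Good (u :: w)) : Good w := by
  cases w with
  | nil => trivial
  | cons a w => exact h

theorem cx_pos {w : List Letter} (h : Good w) (hw : w ≠ []) : 0 < cx w := by
  induction w with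
  | nil => exact absurd rfl hw
  | cons u w ih =>
    by_cases hw' : w = []
    · subst hw'
      have : u = x := h
      subst this
      simp [cx]
    · have := ih (good_tail h) hw'
      cases u <;> simp [cx] <;> omega

theorem D_eq_zero (fac : Letter → ℕ → ℕ → K) : ∀ (w : List Letter) (p r : ℕ), Good w → w ≠ [] →
    r < cx w → D fac w p r = 0 := by
  intro w
  induction w with
  | nil => intro p r _ h; exact absurd rfl h
  | cons u w ih =>
    intro p r hg _ hr
    induction r generalizing p with
    | zero => rw [D]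
    | succ r ihr =>
      have hw' : w ≠ [] := by
        rintro rfl
        have : u = x := hg
        subst this
        simp [cx] at hr
      cases u with
      | x =>
        rw [D, ih p r (good_tail hg) hw' (by simp [cx] at hr; omega), mul_zero, zero_add,
          ihr _ (by omega)]
      | y =>
        rw [D, ih (p + 1) (r + 1) (good_tail hg) hw' (by simpa [cx] using hr), mul_zero, zero_add,
          ihr _ (by omega)]
      | z =>
        rw [D, ih p (r + 1) (good_tail hg) hw' (by simpa [cx] using hr), mul_zero, zero_add,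
          ihr _ (by omega)]

end Path

section Chain

variable {K : Type*} [Field K] (q : K)

/-- `V q t f p`: expectation of `f` after `t` steps of the chain started at `p`. -/
def V : ℕ → (ℕ → K) → ℕ → K
  | 0, f, p => f p
  | t + 1, f, p => q ^ p * V t f p + (1 - q ^ p) * V t f (p + 1)

theorem V_congr (t : ℕ) (f g : ℕ → K) (p : ℕ) (h : ∀ i, i ≤ t → f (p + i) = g (p + i)) :
    V q t f p = V q t g p := by
  induction t generalizing p with
  | zero => exact h 0 le_rfl
  | succ t ih =>
    rw [V, V, ih p (fun i hi => h i (by omega)), ih (p + 1) (fun i hi => by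
      have := h (i + 1) (by omega)
      rwa [show p + (i + 1) = p + 1 + i by ring] at this)]

theorem V_zero (t : ℕ) (f : ℕ → K) : V q t f 0 = f 0 := by
  induction t with
  | zero => rfl
  | succ t ih => rw [V, ih]; simp

theorem V_one (t : ℕ) (p : ℕ) : V q t (fun _ => 1) p = 1 := by
  induction t generalizing p with
  | zero => rfl
  | succ t ih => rw [V, ih, ih]; ring

/-- the operator `θ f (p) = (1 - q ^ p) (f p - f (p + 1))`; `V q (t + 1) = V q t ∘ (1 - θ)`. -/
theorem V_theta (t : ℕ) (f : ℕ → K) (p : ℕ) :
    V q t (fun p => (1 - q ^ p) * (f p - f (p + 1))) p = V q t f p - V q (t + 1) f p := by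
  induction t generalizing p with
  | zero => simp only [V]; ring
  | succ t ih =>
    have h1 : V q (t + 1) (fun p => (1 - q ^ p) * (f p - f (p + 1))) p =
      q ^ p * V q t (fun p => (1 - q ^ p) * (f p - f (p + 1))) p +
        (1 - q ^ p) * V q t (fun p => (1 - q ^ p) * (f p - f (p + 1))) (p + 1) := rfl
    rw [h1, ih, ih]
    have h2 : V q (t + 1 + 1) f p = q ^ p * V q (t + 1) f p + (1 - q ^ p) * V q (t + 1) f (p + 1) := rfl
    have h3 : V q (t + 1) f p = q ^ p * V q t f p + (1 - q ^ p) * V q t f (p + 1) := rfl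
    rw [h2]
    linear_combination -h3

/-- the `x` relation. -/
theorem V_x (t : ℕ) (f : ℕ → K) (p : ℕ) :
    (1 - q ^ p) * (V q (t + 1) f p - V q t f (p + 1)) =
      q ^ p * V q t (fun p => (1 - q ^ p) * (f p - f (p + 1))) p := by
  rw [V_theta]
  have h3 : V q (t + 1) f p = q ^ p * V q t f p + (1 - q ^ p) * V q t f (p + 1) := rfl
  linear_combination h3

theorem V_mul_inv (t : ℕ) (g : ℕ → K) (p : ℕ) :
    q ^ (p + t + 1) * V q (t + 1) g p =
      V q (t + 1) (fun p => q ^ p * g p) p - q ^ p * V q t (fun p => q ^ p * g p) p +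
        q ^ (p + t + 1) * V q t (fun p => q ^ p * g p) p := by
  induction t generalizing p with
  | zero => simp only [V]; ring
  | succ t ih =>
    set h : ℕ → K := fun p => q ^ p * g p with hh
    have e1 : V q (t + 1 + 1) g p = q ^ p * V q (t + 1) g p + (1 - q ^ p) * V q (t + 1) g (p + 1) := rfl
    have e2 : V q (t + 1 + 1) h p = q ^ p * V q (t + 1) h p + (1 - q ^ p) * V q (t + 1) h (p + 1) := rfl
    have e3 : V q (t + 1) h p = q ^ p * V q t h p + (1 - q ^ p) * V q t h (p + 1) := rfl
    have i1 := ih p
    have i2 := ih (p + 1)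
    rw [e1]
    have i2' : q ^ (p + t + 1 + 1) * V q (t + 1) g (p + 1) =
      V q (t + 1) h (p + 1) - q ^ (p + 1) * V q t h (p + 1) + q ^ (p + t + 1 + 1) * V q t h (p + 1) := by
      have : p + 1 + t + 1 = p + t + 1 + 1 := by ring
      rw [this] at i2
      exact i2
    have : q ^ (p + (t + 1) + 1) = q ^ (p + t + 1) * q := by ring
    rw [this]
    have h4 : q ^ (p + t + 1 + 1) = q ^ (p + t + 1) * q := by ring
    rw [h4] at i2'
    have h5 : q ^ (p + 1) = q ^ p * q := by ring
    rw [h5] at i2'
    linear_combination (q * q ^ p) * i1 + (1 - q ^ p) * i2' - e2 - (q ^ (p + t + 1) * q - q ^ p * q) * e3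

theorem V_sub (t : ℕ) (c : K) (f g : ℕ → K) (p : ℕ) :
    V q t (fun p => c * f p - g p) p = c * V q t f p - V q t g p := by
  induction t generalizing p with
  | zero => rfl
  | succ t ih => rw [V, ih, ih, V, V]; ring

theorem V_smul (t : ℕ) (c : K) (f : ℕ → K) (p : ℕ) :
    V q t (fun p => c * f p) p = c * V q t f p := by
  induction t generalizing p with
  | zero => rfl
  | succ t ih => rw [V, ih, ih, V]; ring

/-- first `y` relation. -/
theorem V_y1 (t : ℕ) (f g : ℕ → K) (hg : ∀ p, g (p + 1) = q ^ (p + 1) * (f p - f (p + 1))) (p : ℕ) :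
    V q t g (p + 1) = q ^ (p + 1 + t) * (V q t f p - V q t f (p + 1)) := by
  induction t generalizing p with
  | zero => simp only [V, hg, add_zero]
  | succ t ih =>
    have e1 : V q (t + 1) g (p + 1) = q ^ (p + 1) * V q t g (p + 1) + (1 - q ^ (p + 1)) * V q t g (p + 1 + 1) := rfl
    have e2 : V q (t + 1) f p = q ^ p * V q t f p + (1 - q ^ p) * V q t f (p + 1) := rfl
    have e3 : V q (t + 1) f (p + 1) = q ^ (p + 1) * V q t f (p + 1) + (1 - q ^ (p + 1)) * V q t f (p + 1 + 1) := rfl
    rw [e1, e2, e3, ih, ih]
    ring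

/-- second `y` relation. -/
theorem V_y2 (t : ℕ) (f g : ℕ → K) (hg : ∀ p, g (p + 1) = f p - f (p + 1)) (p : ℕ) :
    V q (t + 1) g (p + 1) = q ^ (t + 1) * V q (t + 1) f p - V q (t + 1) f (p + 1) +
      (1 - q ^ (t + 1)) * V q t f (p + 1) := by
  induction t generalizing p with
  | zero => simp only [V, hg]; ring
  | succ t ih =>
    have e1 : V q (t + 1 + 1) g (p + 1) =
      q ^ (p + 1) * V q (t + 1) g (p + 1) + (1 - q ^ (p + 1)) * V q (t + 1) g (p + 1 + 1) := rfl
    have e2 : V q (t + 1 + 1) f p = q ^ p * V q (t + 1) f p + (1 - q ^ p) * V q (t + 1) f (p + 1) := rfl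
    have e3 : V q (t + 1 + 1) f (p + 1) =
      q ^ (p + 1) * V q (t + 1) f (p + 1) + (1 - q ^ (p + 1)) * V q (t + 1) f (p + 1 + 1) := rfl
    have e4 : V q (t + 1) f (p + 1) =
      q ^ (p + 1) * V q t f (p + 1) + (1 - q ^ (p + 1)) * V q t f (p + 1 + 1) := rfl
    rw [e1, e2, e3, ih, ih]
    linear_combination (-(1 - q ^ (t + 1))) * e4

end Chain

section Main

variable {K : Type*} [Field K] (q : K)

/-- The factors for `q`. -/
def facA : Letter → ℕ → ℕ → K
  | x, p, _ => 1 / (1 - q ^ p)
  | y, _, r => q ^ r / (1 - q ^ r)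
  | z, p, r => 1 / (1 - q ^ p) + q ^ r / (1 - q ^ r)

/-- The factors for `q⁻¹` up to sign. -/
def facB : Letter → ℕ → ℕ → K
  | x, p, _ => q ^ p / (1 - q ^ p)
  | y, _, r => 1 / (1 - q ^ r)
  | z, p, r => 1 / (1 - q ^ p) + q ^ r / (1 - q ^ r)

theorem inter (hq0 : q ≠ 0) (hq : ∀ n : ℕ, 0 < n → q ^ n ≠ 1) (w : List Letter) (hw : Good w) :
    (∀ p r : ℕ, 0 < p → D (facB q) w p r = V q r (fun p' => D (facA q) w p' (p + r - p')) p) ∧
    ((∃ w', w = y :: w') → ∀ p r : ℕ,
      D (facB q) w p r = V q r (fun p' => D (facA q) w p' (p + r - p')) p) := by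
  have hne : ∀ n : ℕ, 0 < n → 1 - q ^ n ≠ 0 := fun n hn h => hq n hn (by linear_combination -h)
  induction w with
  | nil =>
    refine ⟨fun p r _ => ?_, ?_⟩
    · have : (fun p' => D (facA q) [] p' (p + r - p')) = fun _ => (1 : K) := by
        funext p'; rw [D]
      rw [this, V_one, D]
    · rintro ⟨w', h⟩; exact absurd h (by simp)
  | cons u w ih =>
    have ihw := (ih (good_tail hw)).1
    cases u with
    | x =>
      refine ⟨fun p r hp => ?_, ?_⟩
      · induction r generalizing p with
        | zero =>
          rw [D, V]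
          simp [D]
        | succ r ihr =>
          rw [D, ihw p r hp, ihr (p + 1) (by omega)]
          have e1 : V q r (fun p' => D (facA q) w p' (p + r - p')) p =
              V q r (fun p' => (1 - q ^ p') * (D (facA q) (x :: w) p' (p + (r + 1) - p') -
                D (facA q) (x :: w) (p' + 1) (p + (r + 1) - (p' + 1)))) p := by
            apply V_congr
            intro i hi
            have h1 : p + (r + 1) - (p + i) = (p + r - (p + i)) + 1 := by omega
            have h2 : p + (r + 1) - (p + i + 1) = p + r - (p + i) := by omega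
            simp only [h1, h2]
            rw [D]
            have h3 := hne (p + i) (by omega)
            simp only [facA]
            field_simp
            ring
          have e2 : V q r (fun p' => D (facA q) (x :: w) p' (p + 1 + r - p')) (p + 1) =
              V q r (fun p' => D (facA q) (x :: w) p' (p + (r + 1) - p')) (p + 1) := by
            congr 1
            funext p'
            congr 1
            omega
          rw [e1, e2]
          have h4 := V_x q r (fun p' => D (facA q) (x :: w) p' (p + (r + 1) - p')) p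
          have h3 := hne p hp
          simp only [facB]
          rw [div_mul_eq_mul_div, div_add' _ _ _ h3, div_eq_iff h3]
          linear_combination -h4
      · rintro ⟨w', h⟩; exact absurd h (by simp)
    | y =>
      suffices H : ∀ r p : ℕ,
          D (facB q) (y :: w) p r = V q r (fun p' => D (facA q) (y :: w) p' (p + r - p')) p from
        ⟨fun p r _ => H r p, fun _ p r => H r p⟩
      intro r
      have hw0 : w ≠ [] := by
        rintro rfl
        exact absurd (show y = x from hw) (by simp)
      induction r with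
      | zero =>
        intro p
        rw [D, V]
        simp [D]
      | succ r ihr =>
        intro p
        rw [D, ihw (p + 1) (r + 1) (by omega), ihr (p + 1)]
        set φ : ℕ → K := fun p' => D (facA q) (y :: w) p' (p + (r + 1) - p') with hφ
        have e2 : V q r (fun p' => D (facA q) (y :: w) p' (p + 1 + r - p')) (p + 1) = V q r φ (p + 1) := by
          congr 1
          funext p'
          simp only [hφ]
          congr 1
          omega
        rw [e2]
        -- relation between `ψ` and `φ`
        let η : ℕ → K := fun p' => φ (p' - 1) - φ p'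
        let aη : ℕ → K := fun p' => q ^ p' * (φ (p' - 1) - φ p')
        have h1 : V q (r + 1) (fun p' => D (facA q) w p' (p + 1 + (r + 1) - p')) (p + 1) =
            V q (r + 1) (fun p' => (q ^ (p + r + 2))⁻¹ * aη p' - η p') (p + 1) := by
          apply V_congr
          intro i hi
          simp only [aη, η, hφ]
          rcases Nat.lt_or_ge i (r + 1) with h | h
          · obtain ⟨k, hk⟩ : ∃ k, r = i + k := ⟨r - i, by omega⟩
            subst hk
            have g1 : p + 1 + (i + k + 1) - (p + 1 + i) = k + 1 := by omega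
            have g2 : p + 1 + i - 1 = p + i := by omega
            have g3 : p + (i + k + 1) - (p + i) = k + 1 := by omega
            have g4 : p + (i + k + 1) - (p + 1 + i) = k := by omega
            rw [g1, g2, g3, g4]
            have g5 : D (facA q) (y :: w) (p + i) (k + 1) =
              facA q y (p + i + 1) (k + 1) * D (facA q) w (p + i + 1) (k + 1) +
                D (facA q) (y :: w) (p + i + 1) k := by rw [D]
            rw [g5]
            have g6 : p + 1 + i = p + i + 1 := by omega
            rw [g6]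
            have h3 := hne (k + 1) (by omega)
            simp only [facA]
            have g7 : q ^ (p + (i + k) + 2) = q ^ (p + i + 1) * q ^ (k + 1) := by ring
            rw [g7]
            have g8 : q ^ (p + i + 1) ≠ 0 := pow_ne_zero _ hq0
            have g9 : q ^ (k + 1) ≠ 0 := pow_ne_zero _ hq0
            field_simp
            ring
          · have : i = r + 1 := by omega
            subst this
            have g1 : p + 1 + (r + 1) - (p + 1 + (r + 1)) = 0 := by omega
            have g2 : p + 1 + (r + 1) - 1 = p + r + 1 := by omega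
            have g3 : p + (r + 1) - (p + r + 1) = 0 := by omega
            rw [g1, g2, g3]
            have g4 : D (facA q) w (p + 1 + (r + 1)) 0 = 0 := by
              cases w with
              | nil => exact absurd rfl hw0
              | cons a w => rw [D]
            have g5 : p + (r + 1) - (p + 1 + (r + 1)) = 0 := by omega
            rw [g4, g5]
            simp [D]
        rw [h1, V_sub]
        have h2 := V_y1 q (r + 1) φ aη (fun p' => by simp [aη]) p
        have h3 := V_y2 q r φ η (fun p' => by simp [η]) p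
        rw [h2, h3]
        have h4 := hne (r + 1) (by omega)
        have g8 : q ^ (p + r + 2) ≠ 0 := pow_ne_zero _ hq0
        have g9 : p + 1 + (r + 1) = p + r + 2 := by ring
        rw [g9]
        simp only [facB]
        field_simp
        ring
    | z =>
      refine ⟨fun p r hp => ?_, ?_⟩
      · have hw0 : w ≠ [] := by
          rintro rfl
          exact absurd (show z = x from hw) (by simp)
        induction r generalizing p with
        | zero =>
          rw [D, V]
          simp [D]
        | succ r ihr =>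
          rw [D, ihw p (r + 1) hp, ihr (p + 1) (by omega)]
          set φ : ℕ → K := fun p' => D (facA q) (z :: w) p' (p + (r + 1) - p') with hφ
          have e2 : V q r (fun p' => D (facA q) (z :: w) p' (p + 1 + r - p')) (p + 1) = V q r φ (p + 1) := by
            congr 1
            funext p'
            simp only [hφ]
            congr 1
            omega
          rw [e2]
          let χ : ℕ → K := fun p' => (1 - q ^ p') * (φ p' - φ (p' + 1))
          let g : ℕ → K := fun p' => (q ^ p')⁻¹ * χ p'
          have hg : (fun p' => q ^ p' * g p') = χ := by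
            funext p'
            simp only [g]
            rw [mul_inv_cancel_left₀ (pow_ne_zero _ hq0)]
          have hs := hne (p + r + 1) (by omega)
          have h1 : V q (r + 1) (fun p' => D (facA q) w p' (p + (r + 1) - p')) p =
              V q (r + 1) (fun p' => (1 - q ^ (p + r + 1))⁻¹ * (1 * χ p' - q ^ (p + r + 1) * g p')) p := by
            apply V_congr
            intro i hi
            simp only [χ, g, hφ]
            rcases Nat.lt_or_ge i (r + 1) with h | h
            · obtain ⟨k, hk⟩ : ∃ k, r = i + k := ⟨r - i, by omega⟩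
              subst hk
              have g1 : p + (i + k + 1) - (p + i) = k + 1 := by omega
              have g4 : p + (i + k + 1) - (p + i + 1) = k := by omega
              rw [g1, g4]
              have g5 : D (facA q) (z :: w) (p + i) (k + 1) =
                facA q z (p + i) (k + 1) * D (facA q) w (p + i) (k + 1) +
                  D (facA q) (z :: w) (p + i + 1) k := by rw [D]
              rw [g5]
              have h3 := hne (k + 1) (by omega)
              have h4 := hne (p + i) (by omega)
              simp only [facA]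
              have g7 : q ^ (p + (i + k) + 1) = q ^ (p + i) * q ^ (k + 1) := by ring
              rw [g7]
              rw [g7] at hs
              have g8 : q ^ (p + i) ≠ 0 := pow_ne_zero _ hq0
              have g9 : q ^ (k + 1) ≠ 0 := pow_ne_zero _ hq0
              field_simp
              ring
            · have : i = r + 1 := by omega
              subst this
              have g1 : p + (r + 1) - (p + (r + 1)) = 0 := by omega
              have g2 : p + (r + 1) - (p + (r + 1) + 1) = 0 := by omega
              rw [g1, g2]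
              have g4 : D (facA q) w (p + (r + 1)) 0 = 0 := by
                cases w with
                | nil => exact absurd rfl hw0
                | cons a w => rw [D]
              rw [g4]
              simp [D]
          have h1' : V q (r + 1) (fun p' => (1 - q ^ (p + r + 1))⁻¹ * (1 * χ p' - q ^ (p + r + 1) * g p')) p =
              (1 - q ^ (p + r + 1))⁻¹ * (V q (r + 1) χ p - q ^ (p + r + 1) * V q (r + 1) g p) := by
            rw [V_smul q (r + 1) _ (fun p' => 1 * χ p' - q ^ (p + r + 1) * g p'),
              V_sub q (r + 1) 1 χ (fun p' => q ^ (p + r + 1) * g p'), V_smul]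
            ring
          rw [h1, h1']
          have h2 := V_mul_inv q r g p
          rw [hg] at h2
          have h3 := V_x q r φ p
          have h3' : (1 - q ^ p) * (V q (r + 1) φ p - V q r φ (p + 1)) = q ^ p * V q r χ p := h3
          have h4 := hne (r + 1) (by omega)
          have h5 := hne p hp
          have g7 : q ^ (p + r + 1) = q ^ p * q ^ (r + 1) := by ring
          rw [g7] at h2 hs ⊢
          have h6 : V q (r + 1) χ p - q ^ p * q ^ (r + 1) * V q (r + 1) g p =
            (1 - q ^ (r + 1)) * ((1 - q ^ p) * (V q (r + 1) φ p - V q r φ (p + 1))) := by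
            rw [h3']
            linear_combination -h2
          rw [h6]
          simp only [facB]
          field_simp
          ring
      · rintro ⟨w', h⟩; exact absurd h (by simp)

end Main

section Sum

variable {K : Type*} [Field K]

/-- `a_j`: the number of `h ≤ j` with `u_h = y`. -/
def cntY {k : ℕ} (u : Fin k → Letter) (j : Fin k) : ℕ :=
  (Finset.univ.filter fun h : Fin k => h ≤ j ∧ u h = y).card

/-- `b_j`: the number of `h ≥ j` with `u_h = x`. -/
def cntX {k : ℕ} (u : Fin k → Letter) (j : Fin k) : ℕ :=
  (Finset.univ.filter fun h : Fin k => j ≤ h ∧ u h = x).card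

/-- The sum of the products over nondecreasing `n` with values in `[m, N]`. -/
noncomputable def G (fac : Letter → ℕ → ℕ → K) (N : ℕ) {k : ℕ} (u : Fin k → Letter) (a m : ℕ) : K :=
  open Classical in
  ∑ n ∈ Finset.univ.filter (fun n : Fin k → Fin (N + 1) => Monotone n ∧ ∀ j, m ≤ (n j : ℕ)),
    ∏ j, fac (u j) ((n j : ℕ) + a + cntY u j) (N - (n j : ℕ) + cntX u j)

theorem cntY_zero {k : ℕ} (u : Fin (k + 1) → Letter) : cntY u 0 = if u 0 = y then 1 else 0 := by
  unfold cntY
  split_ifs with h
  · have : (Finset.univ.filter fun h : Fin (k + 1) => h ≤ 0 ∧ u h = y) = {0} := by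
      ext i
      simp only [Finset.mem_filter, Finset.mem_univ, true_and, Finset.mem_singleton]
      constructor
      · rintro ⟨h1, -⟩; exact Fin.le_zero_iff.1 h1
      · rintro rfl; exact ⟨le_rfl, h⟩
    rw [this, Finset.card_singleton]
  · rw [Finset.card_eq_zero, Finset.filter_eq_empty_iff]
    rintro i - ⟨h1, h2⟩
    rw [Fin.le_zero_iff.1 h1] at h2
    exact h h2

theorem cntY_succ {k : ℕ} (u : Fin (k + 1) → Letter) (j : Fin k) :
    cntY u j.succ = (if u 0 = y then 1 else 0) + cntY (fun i => u i.succ) j := by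
  unfold cntY
  rw [Fin.card_filter_univ_succ]
  simp only [Fin.zero_le, true_and, Fin.succ_le_succ_iff]
  split_ifs <;> omega

theorem cntX_succ {k : ℕ} (u : Fin (k + 1) → Letter) (j : Fin k) :
    cntX u j.succ = cntX (fun i => u i.succ) j := by
  unfold cntX
  rw [Fin.card_filter_univ_succ]
  have : ¬ (j.succ ≤ (0 : Fin (k + 1)) ∧ u 0 = x) := by
    rintro ⟨h, -⟩
    exact absurd (Fin.le_zero_iff.1 h) (Fin.succ_ne_zero j)
  rw [if_neg this]
  simp

theorem cntX_zero {k : ℕ} (u : Fin (k + 1) → Letter) : cntX u 0 = cx (List.ofFn u) := by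
  induction k with
  | zero =>
    unfold cntX
    rw [Fin.card_filter_univ_succ]
    simp only [List.ofFn_succ, List.ofFn_zero]
    cases h : u 0 <;> simp [cx]
  | succ k ih =>
    have h1 : cntX u 0 = (if u 0 = x then 1 else 0) + cntX (fun i => u i.succ) 0 := by
      unfold cntX
      rw [Fin.card_filter_univ_succ]
      simp only [Fin.zero_le, true_and]
      split_ifs <;> omega
    rw [h1, ih, List.ofFn_succ (f := u)]
    cases h : u 0
    · rw [if_pos rfl, cx, add_comm]
    · rw [if_neg (by simp), zero_add]; rfl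
    · rw [if_neg (by simp), zero_add]; rfl

theorem G_top (fac : Letter → ℕ → ℕ → K) (N : ℕ) {k : ℕ} (u : Fin (k + 1) → Letter) (a : ℕ) :
    G fac N u a (N + 1) = 0 := by
  classical
  unfold G
  rw [Finset.filter_eq_empty_iff.2, Finset.sum_empty]
  rintro n - ⟨-, h⟩
  have := h 0
  have := (n 0).isLt
  omega

theorem G_succ (fac : Letter → ℕ → ℕ → K) (N : ℕ) {k : ℕ} (u : Fin (k + 1) → Letter) (a m : ℕ)
    (hm : m ≤ N) :
    G fac N u a m = fac (u 0) (m + a + cntY u 0) (N - m + cntX u 0) *
      G fac N (fun i => u i.succ) (a + if u 0 = y then 1 else 0) m + G fac N u a (m + 1) := by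
  classical
  unfold G
  have hsplit : Finset.univ.filter (fun n : Fin (k + 1) → Fin (N + 1) => Monotone n ∧ ∀ j, m ≤ (n j : ℕ)) =
      Finset.univ.filter (fun n : Fin (k + 1) → Fin (N + 1) => Monotone n ∧ (n 0 : ℕ) = m) ∪
      Finset.univ.filter (fun n : Fin (k + 1) → Fin (N + 1) => Monotone n ∧ ∀ j, m + 1 ≤ (n j : ℕ)) := by
    ext n
    simp only [Finset.mem_filter, Finset.mem_univ, true_and, Finset.mem_union]
    constructor
    · rintro ⟨h1, h2⟩
      rcases Nat.eq_or_lt_of_le (h2 0) with h | h
      · exact Or.inl ⟨h1, h.symm⟩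
      · refine Or.inr ⟨h1, fun j => ?_⟩
        have : n 0 ≤ n j := h1 (Fin.zero_le j)
        have : (n 0 : ℕ) ≤ n j := this
        omega
    · rintro (⟨h1, h2⟩ | ⟨h1, h2⟩)
      · refine ⟨h1, fun j => ?_⟩
        have : n 0 ≤ n j := h1 (Fin.zero_le j)
        have : (n 0 : ℕ) ≤ n j := this
        omega
      · exact ⟨h1, fun j => by have := h2 j; omega⟩
  rw [hsplit, Finset.sum_union]
  · congr 1
    rw [Finset.mul_sum]
    symm
    refine Finset.sum_bij' (fun n' _ => Fin.cons (⟨m, by omega⟩ : Fin (N + 1)) n')
      (fun n _ => fun i => n i.succ) ?_ ?_ ?_ ?_ ?_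
    · intro n' hn'
      simp only [Finset.mem_filter, Finset.mem_univ, true_and] at hn' ⊢
      refine ⟨?_, rfl⟩
      intro i j hij
      rcases Fin.eq_zero_or_eq_succ i with rfl | ⟨i', rfl⟩
      · rcases Fin.eq_zero_or_eq_succ j with rfl | ⟨j', rfl⟩
        · exact le_rfl
        · rw [Fin.cons_zero, Fin.cons_succ]
          exact hn'.2 j'
      · rcases Fin.eq_zero_or_eq_succ j with rfl | ⟨j', rfl⟩
        · exact absurd (Fin.le_zero_iff.1 hij) (Fin.succ_ne_zero i')
        · rw [Fin.cons_succ, Fin.cons_succ]
          exact hn'.1 (Fin.succ_le_succ_iff.1 hij)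
    · intro n hn
      simp only [Finset.mem_filter, Finset.mem_univ, true_and] at hn ⊢
      refine ⟨fun i j hij => hn.1 (Fin.succ_le_succ_iff.2 hij), fun j => ?_⟩
      have : n 0 ≤ n j.succ := hn.1 (Fin.zero_le _)
      have : (n 0 : ℕ) ≤ n j.succ := this
      omega
    · intro n' _
      funext i
      simp
    · intro n hn
      simp only [Finset.mem_filter, Finset.mem_univ, true_and] at hn
      funext i
      rcases Fin.eq_zero_or_eq_succ i with rfl | ⟨i', rfl⟩
      · rw [Fin.cons_zero]
        exact Fin.ext hn.2.symm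
      · rw [Fin.cons_succ]
    · intro n' _
      rw [Fin.prod_univ_succ, Fin.cons_zero]
      congr 1
      refine Finset.prod_congr rfl fun j _ => ?_
      rw [Fin.cons_succ, cntY_succ, cntX_succ]
      congr 1
      ring
  · rw [Finset.disjoint_filter]
    rintro n - ⟨-, h1⟩ ⟨-, h2⟩
    have := h2 0
    omega

theorem G_eq_D (fac : Letter → ℕ → ℕ → K) (N : ℕ) : ∀ (k : ℕ) (u : Fin k → Letter) (a m : ℕ),
    Good (List.ofFn u) → m ≤ N + 1 → (m ≤ N ∨ 0 < k) →
    G fac N u a m = D fac (List.ofFn u) (m + a) (N + cx (List.ofFn u) - m) := by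
  intro k
  induction k with
  | zero =>
    intro u a m _ _ _
    unfold G
    rw [List.ofFn_zero, D]
    classical
    have : (Finset.univ.filter fun n : Fin 0 → Fin (N + 1) => Monotone n ∧ ∀ j, m ≤ (n j : ℕ)) =
        {fun i => i.elim0} := by
      ext n
      simp only [Finset.mem_filter, Finset.mem_univ, true_and, Finset.mem_singleton]
      refine ⟨fun _ => Subsingleton.elim _ _, fun _ => ⟨fun i => i.elim0, fun i => i.elim0⟩⟩
    rw [this]
    simp
  | succ k ih =>
    intro u a m hg hm _
    have hne : List.ofFn u ≠ [] := by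
      rw [List.ofFn_succ]; simp
    have hcx : 0 < cx (List.ofFn u) := cx_pos hg hne
    -- downward induction on `m`
    obtain ⟨d, hd⟩ : ∃ d, m + d = N + 1 := ⟨N + 1 - m, by omega⟩
    induction d generalizing m with
    | zero =>
      have : m = N + 1 := by omega
      subst this
      rw [G_top, D_eq_zero fac _ _ _ hg hne (by omega)]
    | succ d ihd =>
      have hmN : m ≤ N := by omega
      rw [G_succ fac N u a m hmN, ihd (m + 1) (by omega) (by simp) (by omega)]
      have hg' : Good (List.ofFn fun i => u i.succ) := by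
        rw [List.ofFn_succ] at hg
        exact good_tail hg
      rw [ih (fun i => u i.succ) _ m hg' hm (Or.inl hmN), cntY_zero, cntX_zero]
      have e0 : List.ofFn u = u 0 :: List.ofFn (fun i => u i.succ) := List.ofFn_succ
      rw [e0]
      set w := List.ofFn (fun i => u i.succ) with hw
      rw [e0] at hcx
      cases hu : u 0 with
      | x =>
        have c1 : cx (x :: w) = cx w + 1 := rfl
        have e1 : N + cx (x :: w) - m = (N + cx w - m) + 1 := by omega
        have e2 : N + cx (x :: w) - (m + 1) = N + cx w - m := by omega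
        have e3 : N - m + cx (x :: w) = N + cx w - m + 1 := by omega
        rw [e1, e2, e3, D]
        simp only [reduceCtorEq, if_false, add_zero]
        rw [show m + 1 + a = m + a + 1 by ring]
      | y =>
        rw [hu] at hcx
        have e1 : N + cx (y :: w) - m = (N + cx (y :: w) - (m + 1)) + 1 := by omega
        have e3 : N - m + cx (y :: w) = N + cx (y :: w) - (m + 1) + 1 := by omega
        rw [e3, e1, D]
        simp only [if_true]
        have c1 : cx (y :: w) = cx w := rfl
        have e4 : N + cx w - m = N + cx (y :: w) - (m + 1) + 1 := by omega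
        rw [e4, show m + 1 + a = m + a + 1 by ring, show m + (a + 1) = m + a + 1 by ring]
      | z =>
        rw [hu] at hcx
        have e1 : N + cx (z :: w) - m = (N + cx (z :: w) - (m + 1)) + 1 := by omega
        have e3 : N - m + cx (z :: w) = N + cx (z :: w) - (m + 1) + 1 := by omega
        rw [e3, e1, D]
        simp only [reduceCtorEq, if_false, add_zero]
        have c1 : cx (z :: w) = cx w := rfl
        have e4 : N + cx w - m = N + cx (z :: w) - (m + 1) + 1 := by omega
        rw [e4, show m + 1 + a = m + a + 1 by ring]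

end Sum

section Final

/-- The sum `Z_{N,q}(w)` over `0 ≤ n_1 ≤ ... ≤ n_k ≤ N` attached to the word `w = u_1 ... u_k`, for an element `q`
of a field; `a_j = #{h ≤ j : u_h = y}` and `b_j = #{h ≥ j : u_h = x}`. -/
noncomputable def Z {K : Type*} [Field K] (q : K) (N : ℕ) {k : ℕ} (u : Fin k → Letter) : K :=
  open Classical in
  ∑ n ∈ Finset.univ.filter (fun n : Fin k → Fin (N + 1) => Monotone n),
    ∏ j, match u j with
      | x => 1 / (1 - q ^ (((n j : ℕ) : ℤ) + (cntY u j : ℤ)))
      | y => -1 / (1 - q ^ (((n j : ℕ) : ℤ) - (N : ℤ) - (cntX u j : ℤ)))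
      | z => 1 / (1 - q ^ (((n j : ℕ) : ℤ) + (cntY u j : ℤ))) -
          1 / (1 - q ^ (((n j : ℕ) : ℤ) - (N : ℤ) - (cntX u j : ℤ)))

/-- The words of `𝔥⁰`: the empty word and the words which start with `y` and end with `x`. -/
def InH0 {k : ℕ} (u : Fin k → Letter) : Prop :=
  k = 0 ∨ ∃ h : 0 < k, u ⟨0, h⟩ = y ∧ u ⟨k - 1, Nat.sub_lt h Nat.one_pos⟩ = x

variable {K : Type*} [Field K] (q : K)

theorem cntY_pos {k : ℕ} (u : Fin (k + 1) → Letter) (h0 : u 0 = y) (j : Fin (k + 1)) : 0 < cntY u j := by
  unfold cntY
  rw [Finset.card_pos]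
  exact ⟨0, by simp [h0]⟩

theorem cntX_pos {k : ℕ} (u : Fin (k + 1) → Letter) (h0 : u (Fin.last k) = x) (j : Fin (k + 1)) :
    0 < cntX u j := by
  unfold cntX
  rw [Finset.card_pos]
  exact ⟨Fin.last k, by simp [h0, Fin.le_last]⟩

theorem good_ofFn : ∀ {k : ℕ} (u : Fin (k + 1) → Letter), u (Fin.last k) = x → Good (List.ofFn u) := by
  intro k
  induction k with
  | zero =>
    intro u h
    rw [List.ofFn_succ, List.ofFn_zero]
    exact h
  | succ k ih =>
    intro u h
    have h1 := ih (fun i => u i.succ) (by rw [← h]; rfl)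
    rw [List.ofFn_succ]
    rw [List.ofFn_succ] at h1 ⊢
    exact h1

theorem Z_eq_A (hq0 : q ≠ 0) (hq : ∀ n : ℕ, 0 < n → q ^ n ≠ 1) (N : ℕ) {k : ℕ} (u : Fin (k + 1) → Letter)
    (hul : u (Fin.last k) = x) : Z q N u = G (facA q) N u 0 0 := by
  classical
  have hne : ∀ n : ℕ, 0 < n → 1 - q ^ n ≠ 0 := fun n hn h => hq n hn (by linear_combination -h)
  unfold Z G
  refine Finset.sum_congr ?_ fun n _ => ?_
  · ext n
    simp
  refine Finset.prod_congr rfl fun j _ => ?_
  have hn : (n j : ℕ) ≤ N := Nat.lt_succ_iff.1 (n j).isLt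
  have h1 : q ^ (((n j : ℕ) : ℤ) + (cntY u j : ℤ)) = q ^ ((n j : ℕ) + 0 + cntY u j) := by
    rw [← zpow_natCast]
    congr 1
  have hX := cntX_pos u hul j
  have h2 : q ^ (((n j : ℕ) : ℤ) - (N : ℤ) - (cntX u j : ℤ)) = (q ^ (N - (n j : ℕ) + cntX u j))⁻¹ := by
    rw [← zpow_natCast, ← zpow_neg]
    congr 1
    push_cast [hn]
    ring
  have h3 : -1 / (1 - (q ^ (N - (n j : ℕ) + cntX u j))⁻¹) =
      q ^ (N - (n j : ℕ) + cntX u j) / (1 - q ^ (N - (n j : ℕ) + cntX u j)) := by
    have g1 := hne (N - (n j : ℕ) + cntX u j) (by omega)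
    have g2 : q ^ (N - (n j : ℕ) + cntX u j) ≠ 0 := pow_ne_zero _ hq0
    have g3 : q ^ (N - (n j : ℕ) + cntX u j) - 1 ≠ 0 := fun h => g1 (by linear_combination -h)
    have g4 : 1 - (q ^ (N - (n j : ℕ) + cntX u j))⁻¹ ≠ 0 := by
      intro h
      apply g3
      field_simp at h
      linear_combination h
    rw [div_eq_div_iff g4 g1]
    linear_combination mul_inv_cancel₀ g2
  cases hj : u j with
  | x =>
    simp only [facA]
    rw [h1]
  | y =>
    simp only [facA]
    rw [h2, h3]
  | z =>
    simp only [facA]
    rw [h1, h2, ← h3]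
    ring

theorem Z_inv_eq_B (hq0 : q ≠ 0) (hq : ∀ n : ℕ, 0 < n → q ^ n ≠ 1) (N : ℕ) {k : ℕ}
    (u : Fin (k + 1) → Letter) (hu0 : u 0 = y) (hul : u (Fin.last k) = x) :
    Z q⁻¹ N u = (-1) ^ (k + 1) * G (facB q) N u 0 0 := by
  classical
  have hne : ∀ n : ℕ, 0 < n → 1 - q ^ n ≠ 0 := fun n hn h => hq n hn (by linear_combination -h)
  unfold Z G
  rw [Finset.mul_sum]
  refine Finset.sum_congr ?_ fun n _ => ?_
  · ext n
    simp
  have hc : ((-1 : K)) ^ (k + 1) = ∏ _j : Fin (k + 1), (-1 : K) := by
    rw [Finset.prod_const, Finset.card_univ, Fintype.card_fin]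
  rw [hc, ← Finset.prod_mul_distrib]
  refine Finset.prod_congr rfl fun j _ => ?_
  have hn : (n j : ℕ) ≤ N := Nat.lt_succ_iff.1 (n j).isLt
  have hY := cntY_pos u hu0 j
  have hX := cntX_pos u hul j
  have h1 : q⁻¹ ^ (((n j : ℕ) : ℤ) + (cntY u j : ℤ)) = (q ^ ((n j : ℕ) + 0 + cntY u j))⁻¹ := by
    rw [inv_zpow, ← zpow_natCast]
    congr 1
  have h2 : q⁻¹ ^ (((n j : ℕ) : ℤ) - (N : ℤ) - (cntX u j : ℤ)) = q ^ (N - (n j : ℕ) + cntX u j) := by
    rw [inv_zpow, ← zpow_neg, ← zpow_natCast]
    congr 1
    push_cast [hn]
    ring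
  have g1 := hne ((n j : ℕ) + 0 + cntY u j) (by omega)
  have g5 := hne (N - (n j : ℕ) + cntX u j) (by omega)
  have h3 : 1 / (1 - (q ^ ((n j : ℕ) + 0 + cntY u j))⁻¹) =
      - (q ^ ((n j : ℕ) + 0 + cntY u j) / (1 - q ^ ((n j : ℕ) + 0 + cntY u j))) := by
    have g2 : q ^ ((n j : ℕ) + 0 + cntY u j) ≠ 0 := pow_ne_zero _ hq0
    have g4 : 1 - (q ^ ((n j : ℕ) + 0 + cntY u j))⁻¹ ≠ 0 := by
      intro h
      apply g1
      field_simp at h
      linear_combination -h
    rw [← neg_div, div_eq_div_iff g4 g1]
    linear_combination -(mul_inv_cancel₀ g2)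
  cases hj : u j with
  | x =>
    simp only [facB]
    rw [h1, h3]
    ring
  | y =>
    simp only [facB]
    rw [h2]
    ring
  | z =>
    simp only [facB]
    rw [h1, h2, h3]
    field_simp
    ring

/-- The symmetry for an element `q` of a field that is neither `0` nor a root of unity. -/
theorem symmetry (hq0 : q ≠ 0) (hq : ∀ n : ℕ, 0 < n → q ^ n ≠ 1) (N : ℕ) {k : ℕ} (u : Fin k → Letter)
    (hu : InH0 u) : Z q⁻¹ N u = (-1) ^ k * Z q N u := by
  cases k with
  | zero =>
    classical
    unfold Z
    have : (Finset.univ.filter fun n : Fin 0 → Fin (N + 1) => Monotone n) = Finset.univ := by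
      ext n
      simp only [Finset.mem_filter, Finset.mem_univ, true_and, iff_true]
      exact fun i => i.elim0
    rw [this]
    simp
  | succ k =>
    rcases hu with hu | ⟨h, hu0, hul⟩
    · exact absurd hu (by simp)
    have hu0' : u 0 = y := hu0
    have hul' : u (Fin.last k) = x := hul
    rw [Z_inv_eq_B q hq0 hq N u hu0' hul', Z_eq_A q hq0 hq N u hul']
    congr 1
    have hg := good_ofFn u hul'
    rw [G_eq_D _ N _ u 0 0 hg (by omega) (by simp), G_eq_D _ N _ u 0 0 hg (by omega) (by simp)]
    have h1 := (inter q hq0 hq _ hg).2 ⟨_, by rw [List.ofFn_succ, hu0']⟩ (0 + 0) (N + cx (List.ofFn u) - 0)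
    rw [h1, V_zero]
    simp

open Polynomial in
/-- The automorphism `q ↦ q⁻¹` of `F(q)`. -/
theorem exists_inversion (F : Type*) [Field F] :
    ∃ σ : RatFunc F ≃+* RatFunc F, σ RatFunc.X = RatFunc.X⁻¹ := by
  have htr : Transcendental F (RatFunc.X : RatFunc F)⁻¹ := by
    intro h
    have h1 := h.inv
    rw [inv_inv] at h1
    exact RatFunc.transcendental_X h1
  have hinj : Function.Injective (Polynomial.aeval (R := F) (RatFunc.X : RatFunc F)⁻¹) :=
    transcendental_iff_injective.1 htr
  let f : RatFunc F →ₐ[F] RatFunc F := RatFunc.liftAlgHom (Polynomial.aeval (R := F) (RatFunc.X : RatFunc F)⁻¹)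
    (nonZeroDivisors_le_comap_nonZeroDivisors_of_injective _ hinj)
  have hf : ∀ p : F[X], f (algebraMap F[X] (RatFunc F) p) = Polynomial.aeval (RatFunc.X : RatFunc F)⁻¹ p := by
    intro p
    have := RatFunc.liftAlgHom_apply_div (Polynomial.aeval (R := F) (RatFunc.X : RatFunc F)⁻¹)
      (nonZeroDivisors_le_comap_nonZeroDivisors_of_injective _ hinj) p 1
    simpa using this
  have hfX : f RatFunc.X = RatFunc.X⁻¹ := by
    rw [← RatFunc.algebraMap_X, hf, Polynomial.aeval_X, RatFunc.algebraMap_X]
  have hff : f.comp f = AlgHom.id F (RatFunc F) := by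
    have h1 : ∀ p : F[X], f (f (algebraMap F[X] (RatFunc F) p)) = algebraMap F[X] (RatFunc F) p := by
      intro p
      rw [hf, ← Polynomial.aeval_algHom_apply, map_inv₀, hfX, inv_inv]
      rw [← RatFunc.algebraMap_X, Polynomial.aeval_algebraMap_apply, Polynomial.aeval_X_left_apply]
    ext a
    induction a using RatFunc.induction_on with
    | f p r hr =>
      simp only [AlgHom.comp_apply, map_div₀, AlgHom.coe_id, id_eq]
      rw [h1, h1]
  exact ⟨(AlgEquiv.ofAlgHom f f hff hff).toRingEquiv, hfX⟩

theorem map_Z {K L : Type*} [Field K] [Field L] (f : K →+* L) (q : K) (N : ℕ) {k : ℕ} (u : Fin k → Letter) :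
    f (Z q N u) = Z (f q) N u := by
  classical
  unfold Z
  rw [map_sum]
  refine Finset.sum_congr rfl fun n _ => ?_
  rw [map_prod]
  refine Finset.prod_congr rfl fun j _ => ?_
  cases u j <;> simp [map_zpow₀]

end Final

/-- **The `q`-inversion symmetry.** There is an automorphism `σ` of the field `ℚ(q)` with `σ(q) = q⁻¹` (it is
determined by this), and for all `N ≥ 0` and all words `w = u_1 ... u_k` of `𝔥⁰` one has
`σ(Z_{N,q}(w)) = (-1) ^ k Z_{N,q}(w)`. -/
theorem result : ∃ σ : RatFunc ℚ ≃+* RatFunc ℚ, σ RatFunc.X = RatFunc.X⁻¹ ∧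
    ∀ (N k : ℕ) (u : Fin k → Letter), InH0 u →
      σ (Z (RatFunc.X : RatFunc ℚ) N u) = (-1) ^ k * Z (RatFunc.X : RatFunc ℚ) N u := by
  obtain ⟨σ, hσ⟩ := exists_inversion ℚ
  refine ⟨σ, hσ, fun N k u hu => ?_⟩
  have h1 : σ (Z (RatFunc.X : RatFunc ℚ) N u) = Z (RatFunc.X⁻¹ : RatFunc ℚ) N u := by
    have := map_Z (σ : RatFunc ℚ →+* RatFunc ℚ) (RatFunc.X : RatFunc ℚ) N u
    rw [← hσ]
    exact this
  rw [h1]
  refine symmetry _ RatFunc.X_ne_zero ?_ N u hu
  intro n hn h
  have h2 : (algebraMap (Polynomial ℚ) (RatFunc ℚ)) (Polynomial.X ^ n - 1) = 0 := by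
    rw [map_sub, map_pow, RatFunc.algebraMap_X, h, map_one, sub_self]
  have h3 : (Polynomial.X ^ n - 1 : Polynomial ℚ) = 0 := by
    exact (map_eq_zero_iff _ (RatFunc.algebraMap_injective ℚ)).1 h2
  exact Polynomial.X_pow_sub_C_ne_zero hn (1 : ℚ) (by simpa using h3)

end Pool.Agent.Results.MP_aa79fc_nt.QInversion
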